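import Mathlib
import Pool.Agent.W406.TW.Ang

/-! # Angles of quadratic twists over the residues modulo a prime -/

set_option autoImplicit false

namespace Pool.Agent.J4.H33.NI

open Finset Polynomial Pool.Agent.W406.TW

/-- indicator -/
noncomputable def i1 (S : Set ℝ) (v : ℝ) : ℝ := by classical exact if v ∈ S then 1 else 0

lemma i1_nonneg (S : Set ℝ) (v : ℝ) : 0 ≤ i1 S v := by unfold i1; split_ifs <;> norm_num
lemma i1_le (S : Set ℝ) (v : ℝ) : i1 S v ≤ 1 := by unfold i1; split_ifs <;> norm_num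

lemma ap_congr (p : ℕ) {A A' B B' : ℤ} (hA : (p : ℤ) ∣ A - A') (hB : (p : ℤ) ∣ B - B') :
    ap A B p = ap A' B' p := by
  unfold ap
  congr 1
  refine sum_congr rfl fun x _ => ?_
  apply jacobiSym.mod_left'
  apply Int.emod_emod_of_dvd _ (dvd_refl _) |>.symm.trans
  have h : (p : ℤ) ∣ ((x : ℤ) ^ 3 + A * x + B) - ((x : ℤ) ^ 3 + A' * x + B') := by
    have e : ((x : ℤ) ^ 3 + A * x + B) - ((x : ℤ) ^ 3 + A' * x + B') = (A - A') * x + (B - B') := by ring
    rw [e]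
    exact dvd_add (hA.mul_right _) hB
  rw [Int.emod_emod_of_dvd _ (dvd_refl _)]
  exact Int.emod_emod_of_dvd _ (dvd_refl _) |>.symm.trans (by
    rw [Int.emod_emod_of_dvd _ (dvd_refl _)]
    exact (Int.emod_emod_of_dvd _ (dvd_refl _)).symm.trans (by
      rw [Int.emod_emod_of_dvd _ (dvd_refl _)]
      exact Int.ModEq.symm ((Int.modEq_iff_dvd).2 h)))

lemma ang_congr (p : ℕ) {A A' B B' : ℤ} (hA : (p : ℤ) ∣ A - A') (hB : (p : ℤ) ∣ B - B') :
    ang A B p = ang A' B' p := by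
  unfold ang
  rw [ap_congr p hA hB]
  have h : (p : ℤ) ∣ 2 * (4 * A ^ 3 + 27 * B ^ 2) - 2 * (4 * A' ^ 3 + 27 * B' ^ 2) := by
    have e : 2 * (4 * A ^ 3 + 27 * B ^ 2) - 2 * (4 * A' ^ 3 + 27 * B' ^ 2) =
      (A - A') * (8 * (A ^ 2 + A * A' + A' ^ 2)) + (B - B') * (54 * (B + B')) := by ring
    rw [e]
    exact dvd_add (hA.mul_right _) (hB.mul_right _)
  have h2 := dvd_iff_dvd_of_dvd_sub h
  by_cases h3 : (p : ℤ) ∣ 2 * (4 * A ^ 3 + 27 * B ^ 2)
  · rw [if_pos h3, if_pos (h2.mp h3)]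
  · rw [if_neg h3, if_neg (fun h4 => h3 (h2.mpr h4))]

/-- the sum of the Jacobi symbols of `c + κ t` over the residues -/
lemma sum_lin (c κ : ℤ) {p : ℕ} (hp : p.Prime) (hp2 : p ≠ 2) (hκ : ¬ (p : ℤ) ∣ κ) :
    ∑ t ∈ range p, jacobiSym (c + κ * t) p = 0 := by
  have : NeZero p := ⟨hp.ne_zero⟩
  have := Fact.mk hp
  have h1 : ∑ t ∈ range p, jacobiSym (c + κ * t) p = ∑ x : ZMod p, jz p ((c : ZMod p) + (κ : ZMod p) * x) := by
    refine sum_bij' (fun i _ => (i : ZMod p)) (fun x _ => x.val) (fun i _ => mem_univ _)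
      (fun x _ => mem_range.2 (ZMod.val_lt x)) (fun i hi => ?_) (fun x _ => ?_) (fun i _ => ?_)
    · exact ZMod.val_natCast_of_lt (mem_range.1 hi)
    · exact ZMod.natCast_zmod_val x
    · rw [← jz_cast]; push_cast; rfl
  have hκ0 : (κ : ZMod p) ≠ 0 := by
    rw [Ne, ZMod.intCast_zmod_eq_zero_iff_dvd]
    exact hκ
  have h2 : ∑ x : ZMod p, jz p ((c : ZMod p) + (κ : ZMod p) * x) = ∑ x : ZMod p, jz p x := by
    refine Fintype.sum_equiv ((Equiv.mulLeft₀ (κ : ZMod p) hκ0).trans (Equiv.addLeft (c : ZMod p))) _ _ (fun x => ?_)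
    simp
  rw [h1, h2]
  exact sum_jz (hp.odd_of_ne_two hp2) (not_square_prime hp)

lemma card_zero (c κ : ℤ) {p : ℕ} (hp : p.Prime) (hκ : ¬ (p : ℤ) ∣ κ) :
    ((range p).filter (fun t : ℕ => (p : ℤ) ∣ c + κ * t)).card ≤ 1 := by
  rw [card_le_one]
  intro a ha b hb
  rw [mem_filter, mem_range] at ha hb
  have h1 : (p : ℤ) ∣ κ * ((a : ℤ) - b) := by
    have := dvd_sub ha.2 hb.2
    have e : c + κ * a - (c + κ * b) = κ * ((a : ℤ) - b) := by ring
    rwa [e] at this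
  have h2 : (p : ℤ) ∣ (a : ℤ) - b := ((Nat.prime_iff_prime_int.1 hp).dvd_or_dvd h1).resolve_left hκ
  have h3 := Int.eq_zero_of_abs_lt_dvd h2 (by
    rw [abs_lt]
    constructor <;> [have := hb.1; have := ha.1] <;> omega)
  omega

/-- the mean of the indicator of an angle of the twists by `c + κ t` -/
lemma mean_tw (A B c κ : ℤ) {p : ℕ} (hp : p.Prime) (hp2 : p ≠ 2) (hκ : ¬ (p : ℤ) ∣ κ) (S : Set ℝ) :
    |(∑ t ∈ range p, i1 S (ang (A * (c + κ * t) ^ 2) (B * (c + κ * t) ^ 3) p)) / p -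
      (i1 S (ang A B p) + i1 S (1 - ang A B p)) / 2| ≤ 1 / p := by
  classical
  have hp0 : (0 : ℝ) < p := by exact_mod_cast hp.pos
  obtain ⟨u, hu⟩ : ∃ u, u = i1 S (ang A B p) := ⟨_, rfl⟩
  obtain ⟨v, hv⟩ : ∃ v, v = i1 S (1 - ang A B p) := ⟨_, rfl⟩
  have hu0 := i1_nonneg S (ang A B p)
  have hu1 := i1_le S (ang A B p)
  have hv0 := i1_nonneg S (1 - ang A B p)
  have hv1 := i1_le S (1 - ang A B p)
  rw [← hu] at hu0 hu1 ⊢
  rw [← hv] at hv0 hv1 ⊢
  -- pointwise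
  have hpt : ∀ t ∈ range p, |i1 S (ang (A * (c + κ * t) ^ 2) (B * (c + κ * t) ^ 3) p) -
      ((u + v) / 2 + (jacobiSym (c + κ * t) p : ℝ) * ((u - v) / 2))| ≤ if (p : ℤ) ∣ c + κ * t then 1 else 0 := by
    intro t _
    rcases jacobiSym.trichotomy (c + κ * t) p with h | h | h
    · have hd : (p : ℤ) ∣ c + κ * t := by
        have := Fact.mk hp
        rw [← ZMod.intCast_zmod_eq_zero_iff_dvd]
        by_contra hne
        have h4 := (legendreSym.eq_zero_iff p (c + κ * t)).not.2 hne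
        rw [jacobiSym.legendreSym.to_jacobiSym] at h4
        exact h4 h
      rw [if_pos hd, h]
      have h5 := i1_nonneg S (ang (A * (c + κ * t) ^ 2) (B * (c + κ * t) ^ 3) p)
      have h6 := i1_le S (ang (A * (c + κ * t) ^ 2) (B * (c + κ * t) ^ 3) p)
      rw [abs_le]
      push_cast
      constructor <;> linarith
    · have hnd := not_dvd_of_jac hp (by rw [h]; decide : jacobiSym (c + κ * t) p ≠ 0)
      rw [if_neg hnd, ang_one A B _ hp hp2 h, ← hu, h]
      push_cast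
      rw [show u - ((u + v) / 2 + 1 * ((u - v) / 2)) = 0 by ring, abs_zero]
    · have hnd := not_dvd_of_jac hp (by rw [h]; decide : jacobiSym (c + κ * t) p ≠ 0)
      rw [if_neg hnd, ang_neg A B _ hp hp2 h, ← hv, h]
      push_cast
      rw [show v - ((u + v) / 2 + -1 * ((u - v) / 2)) = 0 by ring, abs_zero]
  have hsum : |∑ t ∈ range p, (i1 S (ang (A * (c + κ * t) ^ 2) (B * (c + κ * t) ^ 3) p) -
      ((u + v) / 2 + (jacobiSym (c + κ * t) p : ℝ) * ((u - v) / 2)))| ≤ 1 := by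
    refine (abs_sum_le_sum_abs _ _).trans ((sum_le_sum hpt).trans ?_)
    rw [sum_boole]
    exact_mod_cast card_zero c κ hp hκ
  have hlin : ∑ t ∈ range p, ((u + v) / 2 + (jacobiSym (c + κ * t) p : ℝ) * ((u - v) / 2)) = p * ((u + v) / 2) := by
    rw [sum_add_distrib, ← sum_mul, sum_const, card_range, nsmul_eq_mul]
    have h7 : ∑ t ∈ range p, (jacobiSym (c + κ * t) p : ℝ) = 0 := by
      have := sum_lin c κ hp hp2 hκ
      exact_mod_cast this
    rw [h7, zero_mul, add_zero]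
  rw [sum_sub_distrib, hlin] at hsum
  have e : (∑ t ∈ range p, i1 S (ang (A * (c + κ * t) ^ 2) (B * (c + κ * t) ^ 3) p)) / p - (u + v) / 2 =
      (∑ t ∈ range p, i1 S (ang (A * (c + κ * t) ^ 2) (B * (c + κ * t) ^ 3) p) - p * ((u + v) / 2)) / p := by
    field_simp
  rw [e, abs_div, abs_of_pos hp0]
  exact div_le_div_of_nonneg_right hsum hp0.le

/-- products of numbers in `[0, 1]` -/
lemma prod_diff {ι : Type*} (s : Finset ι) (a b : ι → ℝ) (ha : ∀ i ∈ s, 0 ≤ a i ∧ a i ≤ 1)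
    (hb : ∀ i ∈ s, 0 ≤ b i ∧ b i ≤ 1) : |∏ i ∈ s, a i - ∏ i ∈ s, b i| ≤ ∑ i ∈ s, |a i - b i| := by
  classical
  induction s using Finset.induction_on with
  | empty => simp
  | insert i s hi ih =>
    rw [prod_insert hi, prod_insert hi, sum_insert hi]
    have h1 := ih (fun j hj => ha j (mem_insert_of_mem hj)) (fun j hj => hb j (mem_insert_of_mem hj))
    have ha1 := ha i (mem_insert_self _ _)
    have hb1 := hb i (mem_insert_self _ _)
    have hA0 : 0 ≤ ∏ j ∈ s, a j := prod_nonneg fun j hj => (ha j (mem_insert_of_mem hj)).1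
    have hA1 : ∏ j ∈ s, a j ≤ 1 := prod_le_one (fun j hj => (ha j (mem_insert_of_mem hj)).1)
      (fun j hj => (ha j (mem_insert_of_mem hj)).2)
    have e : a i * ∏ j ∈ s, a j - b i * ∏ j ∈ s, b j =
        (a i - b i) * ∏ j ∈ s, a j + b i * (∏ j ∈ s, a j - ∏ j ∈ s, b j) := by ring
    rw [e]
    refine (abs_add_le _ _).trans ?_
    rw [abs_mul, abs_mul, abs_of_nonneg hA0, abs_of_nonneg hb1.1]
    have h2 : |a i - b i| * ∏ j ∈ s, a j ≤ |a i - b i| * 1 := mul_le_mul_of_nonneg_left hA1 (abs_nonneg _)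
    have h3 : b i * |∏ j ∈ s, a j - ∏ j ∈ s, b j| ≤ 1 * |∏ j ∈ s, a j - ∏ j ∈ s, b j| :=
      mul_le_mul_of_nonneg_right hb1.2 (abs_nonneg _)
    linarith

/-- the sum of the errors at the primes -/
lemma sum_err (κ : ℤ) (hκ : κ ≠ 0) (i : ℕ) (K : ℕ) :
    ∑ k ∈ range K, (if ((Nat.nth Nat.Prime (k + i) : ℕ) : ℤ) ∣ 2 * κ then (1 : ℝ) else
      1 / (Nat.nth Nat.Prime (k + i) : ℕ)) ≤ 1 + Real.log K + (2 * κ).natAbs := by
  classical
  have h1 : ∀ k ∈ range K, (if ((Nat.nth Nat.Prime (k + i) : ℕ) : ℤ) ∣ 2 * κ then (1 : ℝ) else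
      1 / (Nat.nth Nat.Prime (k + i) : ℕ)) ≤
      (if ((Nat.nth Nat.Prime (k + i) : ℕ) : ℤ) ∣ 2 * κ then (1 : ℝ) else 0) + ((k + 1 : ℕ) : ℝ)⁻¹ := by
    intro k _
    have h2 : k + i ≤ Nat.nth Nat.Prime (k + i) := (Nat.nth_strictMono Nat.infinite_setOfPred_prime).id_le (k + i)
    have h3 : k + i + 1 ≤ Nat.nth Nat.Prime (k + i) := by
      have h4 : ∀ n : ℕ, n + 1 ≤ Nat.nth Nat.Prime n := by
        intro n
        induction n with
        | zero => rw [Nat.nth_prime_zero_eq_two]; norm_num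
        | succ n ih =>
          have h9 : Nat.nth Nat.Prime n < Nat.nth Nat.Prime (n + 1) :=
            Nat.nth_strictMono Nat.infinite_setOfPred_prime (Nat.lt_succ_self n)
          omega
      exact h4 _
    have h5 : (0 : ℝ) ≤ ((k + 1 : ℕ) : ℝ)⁻¹ := by positivity
    split_ifs
    · linarith
    · rw [zero_add, one_div]
      apply inv_anti₀ (by positivity)
      exact_mod_cast (by omega : k + 1 ≤ Nat.nth Nat.Prime (k + i))
  refine (sum_le_sum h1).trans ?_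
  rw [sum_add_distrib, sum_boole]
  have h6 : (((range K).filter (fun k => ((Nat.nth Nat.Prime (k + i) : ℕ) : ℤ) ∣ 2 * κ)).card : ℝ) ≤ (2 * κ).natAbs := by
    have h7 : ((range K).filter (fun k => ((Nat.nth Nat.Prime (k + i) : ℕ) : ℤ) ∣ 2 * κ)).card ≤
        (Icc 1 (2 * κ).natAbs).card := by
      apply card_le_card_of_injOn (fun k => Nat.nth Nat.Prime (k + i))
      · intro k hk
        rw [coe_filter, Set.mem_ofPred_eq] at hk
        rw [coe_Icc, Set.mem_Icc]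
        refine ⟨(Nat.prime_nth_prime _).pos, Nat.le_of_dvd (Int.natAbs_pos.2 (by omega)) (Int.natCast_dvd.1 hk.2)⟩
      · intro k _ l _ h
        have := Nat.nth_injective Nat.infinite_setOfPred_prime h
        omega
    rw [Nat.card_Icc] at h7
    exact_mod_cast h7
  have h8 : ∑ k ∈ range K, ((k + 1 : ℕ) : ℝ)⁻¹ ≤ 1 + Real.log K := by
    have := harmonic_le_one_add_log K
    unfold harmonic at this
    push_cast at this ⊢
    exact this
  linarith

end Pool.Agent.J4.H33.NI
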